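import Pool.Agent.H720Z.Non.Defs
import Pool.Agent.H720Z.Non.Main

/-!
# The uniformity numbers of the Hausdorff-null ideals of dimensions `0 < r < s < n` agree
-/

namespace Pool.Agent.Results.MP_eebbd0_lc.NonEqual

open Pool.Agent.H720Z.Non MeasureTheory

theorem result (n : ℕ) (r s : ℝ) (hr : 0 < r) (hrs : r < s) (hs : s < n) :
    non (nullIdeal n r) = non (nullIdeal n s) := by
  unfold non
  by_cases hne : {c : Cardinal | ∃ X, X ∉ nullIdeal n r ∧ Cardinal.mk X = c}.Nonempty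
  · obtain ⟨X, hX, hc⟩ := csInf_mem hne
    obtain ⟨Y, hY, hle⟩ := exists_small hr (hr.trans hrs) hs hX
    refine le_antisymm (csInf_le_csInf (OrderBot.bddBelow _) ⟨_, Y, hY, rfl⟩ ?_) ?_
    · rintro _ ⟨Z, hZ, rfl⟩
      refine ⟨Z, fun h => hZ ?_, rfl⟩
      exact le_antisymm ((Measure.hausdorffMeasure_mono hrs.le Z).trans (le_of_eq h)) zero_le
    · rw [← hc]
      refine le_trans (csInf_le (OrderBot.bddBelow _) ?_) hle
      exact ⟨Y, hY, rfl⟩
  · have h1 := Set.not_nonempty_iff_eq_empty.1 hne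
    have h2 : {c : Cardinal | ∃ X, X ∉ nullIdeal n s ∧ Cardinal.mk X = c} = ∅ := by
      rw [Set.eq_empty_iff_forall_notMem]
      rintro _ ⟨Z, hZ, rfl⟩
      refine hne ⟨_, Z, fun h => hZ ?_, rfl⟩
      exact le_antisymm ((Measure.hausdorffMeasure_mono hrs.le Z).trans (le_of_eq h)) zero_le
    rw [h1, h2]

end Pool.Agent.Results.MP_eebbd0_lc.NonEqual
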